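import Mathlib

open CategoryTheory

namespace Pool.Agent.Results.MP_93a4b1_al.NotQuasiPolynomial

/-- The objects of the category `FI_d`: the finite sets. -/
structure FI (d : ℕ) where
  /-- the underlying finite set -/
  carrier : Type
  [fin : Finite carrier]

attribute [instance] FI.fin

/-- The finite set with `n` elements `{0, …, n - 1}` as an object of `FI_d`. -/
def FI.std (d n : ℕ) : FI d := ⟨Fin n⟩

/-- A morphism `A → B` of `FI_d`: an injection `g : A → B` together with an arbitrary colouring
`h : B \ g(A) → {0, …, d - 1}` of the complement of its image. -/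
structure FI.Hom {d : ℕ} (A B : FI d) where
  /-- the injection -/
  g : A.carrier → B.carrier
  inj : Function.Injective g
  /-- the colouring of the complement of the image -/
  h : {b : B.carrier // b ∉ Set.range g} → Fin d

variable {d : ℕ}

theorem FI.Hom.ext' {A B : FI d} {φ ψ : FI.Hom A B} (hg : ∀ a, φ.g a = ψ.g a)
    (hh : ∀ b (h1 : b ∉ Set.range φ.g) (h2 : b ∉ Set.range ψ.g), φ.h ⟨b, h1⟩ = ψ.h ⟨b, h2⟩) :
    φ = ψ := by
  obtain ⟨g, hg1, h⟩ := φ
  obtain ⟨g', hg2, h'⟩ := ψ
  obtain rfl : g = g' := funext hg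
  have : h = h' := by
    funext ⟨b, hb⟩
    exact hh b hb hb
  rw [this]

/-- The identity morphism (the complement of the image is empty). -/
def FI.Hom.id (A : FI d) : FI.Hom A A where
  g := fun a => a
  inj := fun _ _ h => h
  h := fun b => absurd ⟨b.1, rfl⟩ b.2

open Classical in
/-- The composition `ψ ∘ φ`: the injections are composed, and each new point keeps its colour. -/
noncomputable def FI.Hom.comp {A B C : FI d} (φ : FI.Hom A B) (ψ : FI.Hom B C) : FI.Hom A C where
  g := fun a => ψ.g (φ.g a)
  inj := fun _ _ h => φ.inj (ψ.inj h)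
  h := fun c =>
    if hc : (c : C.carrier) ∈ Set.range ψ.g then
      φ.h ⟨hc.choose, by
        rintro ⟨a, ha⟩
        exact c.2 ⟨a, by
          show ψ.g (φ.g a) = c
          rw [ha]
          exact hc.choose_spec⟩⟩
    else ψ.h ⟨c, hc⟩

theorem FI.Hom.comp_h_in {A B C : FI d} (φ : FI.Hom A B) (ψ : FI.Hom B C) (b : B.carrier)
    (hb : b ∉ Set.range φ.g) (hc : ψ.g b ∉ Set.range (φ.comp ψ).g) :
    (φ.comp ψ).h ⟨ψ.g b, hc⟩ = φ.h ⟨b, hb⟩ := by
  have h1 : ψ.g b ∈ Set.range ψ.g := ⟨b, rfl⟩
  have h2 : h1.choose = b := ψ.inj h1.choose_spec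
  simp only [FI.Hom.comp]
  rw [dif_pos h1]
  congr 1
  exact Subtype.ext h2

theorem FI.Hom.comp_h_out {A B C : FI d} (φ : FI.Hom A B) (ψ : FI.Hom B C) (c : C.carrier)
    (hb : c ∉ Set.range ψ.g) (hc : c ∉ Set.range (φ.comp ψ).g) :
    (φ.comp ψ).h ⟨c, hc⟩ = ψ.h ⟨c, hb⟩ := by
  simp only [FI.Hom.comp]
  rw [dif_neg hb]

theorem FI.Hom.comp_g {A B C : FI d} (φ : FI.Hom A B) (ψ : FI.Hom B C) (a : A.carrier) :
    (φ.comp ψ).g a = ψ.g (φ.g a) := rfl

/-- `FI_d` is a category. -/
noncomputable instance : Category (FI d) where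
  Hom A B := FI.Hom A B
  id A := FI.Hom.id A
  comp φ ψ := FI.Hom.comp φ ψ
  id_comp {A B} φ := by
    apply FI.Hom.ext'
    · intro a
      rfl
    · intro b h1 h2
      exact FI.Hom.comp_h_out _ _ b h2 h1
  comp_id {A B} φ := by
    apply FI.Hom.ext'
    · intro a
      rfl
    · intro b h1 h2
      exact FI.Hom.comp_h_in _ (FI.Hom.id B) b h2 h1
  assoc {A B C D} φ ψ χ := by
    apply FI.Hom.ext'
    · intro a
      rfl
    · intro x h1 h2
      by_cases hx : x ∈ Set.range χ.g
      · obtain ⟨c, rfl⟩ := hx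
        have h3 : c ∉ Set.range (φ.comp ψ).g := by
          rintro ⟨a, ha⟩
          exact h1 ⟨a, by
            show χ.g ((φ.comp ψ).g a) = χ.g c
            rw [ha]⟩
        refine (FI.Hom.comp_h_in (φ.comp ψ) χ c h3 h1).trans ?_
        by_cases hc : c ∈ Set.range ψ.g
        · obtain ⟨b, rfl⟩ := hc
          have h4 : b ∉ Set.range φ.g := by
            rintro ⟨a, ha⟩
            exact h3 ⟨a, by
              show ψ.g (φ.g a) = ψ.g b
              rw [ha]⟩
          refine (FI.Hom.comp_h_in φ ψ b h4 h3).trans ?_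
          exact (FI.Hom.comp_h_in φ (ψ.comp χ) b h4 h2).symm
        · refine (FI.Hom.comp_h_out φ ψ c hc h3).trans ?_
          have h5 : χ.g c ∉ Set.range (ψ.comp χ).g := by
            rintro ⟨b, hb⟩
            exact hc ⟨b, χ.inj hb⟩
          refine Eq.trans ?_ (FI.Hom.comp_h_out φ (ψ.comp χ) (χ.g c) h5 h2).symm
          exact (FI.Hom.comp_h_in ψ χ c hc h5).symm
      · have h3 : x ∉ Set.range (ψ.comp χ).g := by
          rintro ⟨b, hb⟩
          exact hx ⟨ψ.g b, hb⟩
        refine (FI.Hom.comp_h_out (φ.comp ψ) χ x hx h1).trans ?_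
        refine Eq.trans ?_ (FI.Hom.comp_h_out φ (ψ.comp χ) x h3 h2).symm
        exact (FI.Hom.comp_h_out ψ χ x hx h3).symm

/-- A permutation `σ` as an automorphism `(σ, ∅)` of `{0, …, n - 1}` in `FI_d`. -/
def FI.perm (d : ℕ) {n : ℕ} (σ : Equiv.Perm (Fin n)) : FI.std d n ⟶ FI.std d n where
  g := fun a => σ a
  inj := σ.injective
  h := fun b => absurd ⟨σ.symm b.1, σ.apply_symm_apply b.1⟩ b.2

theorem FI.perm_one (n : ℕ) : FI.perm d (1 : Equiv.Perm (Fin n)) = 𝟙 (FI.std d n) := by
  apply FI.Hom.ext'
  · intro a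
    rfl
  · intro b h1 h2
    exact absurd ⟨b, rfl⟩ h2

theorem FI.perm_mul {n : ℕ} (σ τ : Equiv.Perm (Fin n)) :
    FI.perm d (σ * τ) = FI.perm d τ ≫ FI.perm d σ := by
  apply FI.Hom.ext'
  · intro a
    rfl
  · intro b h1 h2
    exact absurd ⟨(σ * τ).symm b, (σ * τ).apply_symm_apply b⟩ h1

variable {k : Type} [Field k]

/-- `V_n` as a representation of the symmetric group `S_n`. -/
noncomputable def rep (V : FI d ⥤ ModuleCat.{0} k) (n : ℕ) :
    Representation k (Equiv.Perm (Fin n)) (V.obj (FI.std d n)) where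
  toFun σ := (V.map (FI.perm d σ)).hom
  map_one' := by
    rw [FI.perm_one, V.map_id]
    rfl
  map_mul' σ τ := by
    rw [FI.perm_mul, V.map_comp]
    rfl

/-- The cohomology `H^t(S_n, V_n)`. -/
noncomputable abbrev coh (V : FI d ⥤ ModuleCat.{0} k) (t n : ℕ) : ModuleCat.{0} k :=
  groupCohomology (Rep.of (rep V n)) t

/-- A sub-functor of an `FI_d`-module `V`: a subspace of each `V(A)`, preserved by all maps. -/
structure SubFunctor (V : FI d ⥤ ModuleCat.{0} k) where
  /-- the subspace at `A` -/
  obj : ∀ A : FI d, Submodule k (V.obj A)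
  map : ∀ {A B : FI d} (φ : A ⟶ B) (x : V.obj A), x ∈ obj A → (V.map φ).hom x ∈ obj B

/-- `V` is finitely generated: there are finitely many elements `v_i ∈ V_{n_i}` such that no
proper sub-functor contains all of them. -/
def FinGen (V : FI d ⥤ ModuleCat.{0} k) : Prop :=
  ∃ (r : ℕ) (m : Fin r → ℕ) (v : ∀ i, V.obj (FI.std d (m i))),
    ∀ W : SubFunctor V, (∀ i, v i ∈ W.obj (FI.std d (m i))) → ∀ A, W.obj A = ⊤

/-- `f` agrees with a quasi-polynomial (of any degree) for all large `n`. -/
def EventuallyQuasiPolynomial (f : ℕ → ℕ) : Prop :=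
  ∃ N : ℕ, 1 ≤ N ∧ ∃ P : ℕ → Polynomial ℚ, ∃ n₀ : ℕ, ∀ n ≥ n₀,
    (f n : ℚ) = (P (n % N)).eval (n : ℚ)

/-! ### the arithmetic -/

theorem choose_pred_pow {p : ℕ} (hp : p.Prime) (j m : ℕ) (hm : m ≤ p ^ j - 1) :
    ¬ p ∣ (p ^ j - 1).choose m := by
  have hpos : 0 < p ^ j := pow_pos hp.pos j
  induction m with
  | zero =>
    rw [Nat.choose_zero_right]
    intro h
    exact hp.one_lt.ne' (Nat.dvd_one.1 h)
  | succ m ih =>
    have h1 := ih (by omega)
    intro h2
    have h3 : p ∣ (p ^ j).choose (m + 1) :=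
      hp.dvd_choose_pow (by omega) (by omega)
    have h4 : (p ^ j).choose (m + 1) =
        (p ^ j - 1).choose m + (p ^ j - 1).choose (m + 1) := by
      obtain ⟨q, hq⟩ : ∃ q, p ^ j = q + 1 := ⟨p ^ j - 1, by omega⟩
      rw [hq, Nat.add_sub_cancel, Nat.choose_succ_succ]
    rw [h4] at h3
    exact h1 ((Nat.dvd_add_left h2).1 h3)

theorem dvd_choose_add {p : ℕ} (hp : p.Prime) (j N : ℕ) (hN : 1 ≤ N) (hj : N < p ^ j) :
    p ∣ (p ^ j - 1 + N).choose N := by
  by_contra hcon
  have h1 : (p ^ j - 1 + N).choose N * N = (p ^ j - 1 + N).choose (N - 1) * p ^ j := by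
    obtain ⟨M, rfl⟩ : ∃ M, N = M + 1 := ⟨N - 1, by omega⟩
    have := Nat.choose_succ_right_eq (p ^ j - 1 + (M + 1)) M
    rw [this]
    congr 1
    omega
  have h2 : p ^ j ∣ (p ^ j - 1 + N).choose N * N := by
    rw [h1]
    exact Dvd.intro_left _ rfl
  have h3 : Nat.Coprime (p ^ j) ((p ^ j - 1 + N).choose N) :=
    Nat.Coprime.pow_left _ ((Nat.Prime.coprime_iff_not_dvd hp).2 hcon)
  have h4 := h3.dvd_of_dvd_mul_left h2
  exact absurd (Nat.le_of_dvd (by omega) h4) (by omega)

/-- the number of `m ≤ n` such that `p` divides the binomial coefficient -/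
noncomputable def num (p n : ℕ) : ℕ :=
  Nat.card {m : Fin (n + 1) // p ∣ n.choose m}

theorem not_eventually {p : ℕ} (hp : p.Prime) : ¬ EventuallyQuasiPolynomial (num p) := by
  rintro ⟨N, hN, P, n₀, hP⟩
  have : NeZero N := ⟨by omega⟩
  obtain ⟨r, hr⟩ := Finite.exists_infinite_fiber
    (fun j : ℕ => (⟨(p ^ j - 1) % N, Nat.mod_lt _ (by omega)⟩ : Fin N))
  have hinf : Set.Infinite {j : ℕ | (p ^ j - 1) % N = r.1} := by
    have h1 : Set.Infinite ((fun j : ℕ => (⟨(p ^ j - 1) % N, Nat.mod_lt _ (by omega)⟩ : Fin N)) ⁻¹'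
      {r}) := Set.infinite_coe_iff.1 hr
    refine h1.mono ?_
    intro j hj
    exact congrArg Fin.val hj
  have hzero : P r.1 = 0 := by
    apply Polynomial.eq_zero_of_infinite_isRoot
    have hinj : Function.Injective (fun j : ℕ => ((p ^ j - 1 : ℕ) : ℚ)) := by
      intro a b hab
      have h1 : p ^ a - 1 = p ^ b - 1 := by
        simp only at hab
        exact_mod_cast hab
      have h2 : 0 < p ^ a := pow_pos hp.pos a
      have h3 : 0 < p ^ b := pow_pos hp.pos b
      exact Nat.pow_right_injective hp.two_le (by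
        show p ^ a = p ^ b
        omega)
    have h2 : Set.Infinite ({j : ℕ | (p ^ j - 1) % N = r.1} \ {j | j ≤ n₀}) :=
      hinf.sdiff (Set.finite_le_nat n₀)
    refine (h2.image hinj.injOn).mono ?_
    rintro _ ⟨j, ⟨hj1, hj2⟩, rfl⟩
    have hj3 : n₀ < j := by simpa using hj2
    have hj4 : j < p ^ j := Nat.lt_pow_self hp.one_lt
    have h3 := hP (p ^ j - 1) (by omega)
    have h4 : num p (p ^ j - 1) = 0 := by
      unfold num
      rw [Nat.card_eq_zero]
      left
      constructor
      rintro ⟨m, hm⟩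
      exact choose_pred_pow hp j m.1 (by have := m.2; omega) hm
    have hj1' : (p ^ j - 1) % N = r.1 := hj1
    rw [h4, hj1'] at h3
    show (P r.1).IsRoot _
    rw [Polynomial.IsRoot.def, ← h3]
    simp
  obtain ⟨j, hj1, hj2⟩ : ∃ j ∈ {j : ℕ | (p ^ j - 1) % N = r.1}, n₀ + N < j :=
    hinf.exists_gt (n₀ + N)
  have hj4 : j < p ^ j := Nat.lt_pow_self hp.one_lt
  have hj1' : (p ^ j - 1) % N = r.1 := hj1
  have h3 := hP (p ^ j - 1 + N) (by omega)
  rw [Nat.add_mod_right, hj1', hzero, Polynomial.eval_zero] at h3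
  have h4 : num p (p ^ j - 1 + N) = 0 := by exact_mod_cast h3
  unfold num at h4
  rw [Nat.card_eq_zero] at h4
  rcases h4 with h4 | h4
  · exact h4.false ⟨⟨N, by omega⟩, dvd_choose_add hp j N hN (by omega)⟩
  · exact h4.not_finite (inferInstance)

/-! ### the module -/

open Classical in
/-- The two-colouring of `B` which extends the two-colouring `c` of `A` along the morphism `φ`:
a new point gets the value `true` exactly when its colour is `0`. -/
noncomputable def extC {A B : FI d} (φ : FI.Hom A B) (c : A.carrier → Bool) : B.carrier → Bool :=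
  fun b => if hb : b ∈ Set.range φ.g then c hb.choose else decide ((φ.h ⟨b, hb⟩).val = 0)

theorem extC_in {A B : FI d} (φ : FI.Hom A B) (c : A.carrier → Bool) (a : A.carrier) :
    extC φ c (φ.g a) = c a := by
  have h1 : φ.g a ∈ Set.range φ.g := ⟨a, rfl⟩
  have h2 : h1.choose = a := φ.inj h1.choose_spec
  unfold extC
  rw [dif_pos h1, h2]

theorem extC_out {A B : FI d} (φ : FI.Hom A B) (c : A.carrier → Bool) (b : B.carrier)
    (hb : b ∉ Set.range φ.g) : extC φ c b = decide ((φ.h ⟨b, hb⟩).val = 0) := by
  unfold extC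
  rw [dif_neg hb]

theorem extC_id (A : FI d) (c : A.carrier → Bool) : extC (𝟙 A) c = c := by
  funext a
  exact extC_in (FI.Hom.id A) c a

theorem extC_comp {A B C : FI d} (φ : A ⟶ B) (ψ : B ⟶ C) (c : A.carrier → Bool) :
    extC (φ ≫ ψ) c = extC ψ (extC φ c) := by
  funext x
  by_cases hx : x ∈ Set.range ψ.g
  · obtain ⟨b, rfl⟩ := hx
    rw [extC_in ψ]
    by_cases hb : b ∈ Set.range φ.g
    · obtain ⟨a, rfl⟩ := hb
      rw [extC_in φ]
      exact extC_in (φ.comp ψ) c a
    · have h1 : ψ.g b ∉ Set.range (φ.comp ψ).g := by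
        rintro ⟨a, ha⟩
        exact hb ⟨a, ψ.inj ha⟩
      rw [extC_out φ c b hb]
      refine (extC_out (φ.comp ψ) c (ψ.g b) h1).trans ?_
      rw [FI.Hom.comp_h_in φ ψ b hb h1]
  · have h1 : x ∉ Set.range (φ.comp ψ).g := by
      rintro ⟨a, ha⟩
      exact hx ⟨φ.g a, ha⟩
    rw [extC_out ψ _ x hx]
    refine (extC_out (φ.comp ψ) c x h1).trans ?_
    rw [FI.Hom.comp_h_out φ ψ x hx h1]

theorem extC_injective {A B : FI d} (φ : FI.Hom A B) : Function.Injective (extC φ) := by
  intro c c' h
  funext a
  rw [← extC_in φ c a, ← extC_in φ c' a, h]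

/-- The number of points where the two-colouring is `true`. -/
noncomputable def cnt {X : Type} (c : X → Bool) : ℕ := Nat.card {a : X // c a = true}

theorem cnt_extC {A B : FI d} (φ : FI.Hom A B) (c : A.carrier → Bool) :
    cnt (extC φ c) = cnt c + Nat.card {b : {b : B.carrier // b ∉ Set.range φ.g} //
      (φ.h b).val = 0} := by
  classical
  unfold cnt
  rw [← Nat.card_sum]
  apply Nat.card_congr
  symm
  refine Equiv.ofBijective (Sum.elim
    (fun a => ⟨φ.g a.1, by rw [extC_in]; exact a.2⟩)
    (fun b => ⟨b.1.1, by rw [extC_out φ c b.1.1 b.1.2]; exact decide_eq_true b.2⟩)) ⟨?_, ?_⟩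
  · rintro (a | b) (a' | b') h
    · have h1 : φ.g a.1 = φ.g a'.1 := congrArg Subtype.val h
      rw [Subtype.ext (φ.inj h1)]
    · have h1 : φ.g a.1 = b'.1.1 := congrArg Subtype.val h
      exact absurd ⟨a.1, h1⟩ b'.1.2
    · have h1 : b.1.1 = φ.g a'.1 := congrArg Subtype.val h
      exact absurd ⟨a'.1, h1.symm⟩ b.1.2
    · have h1 : b.1.1 = b'.1.1 := by
        have := congrArg Subtype.val h
        exact this
      rw [Subtype.ext (Subtype.ext h1)]
  · rintro ⟨b, hb⟩
    by_cases h : b ∈ Set.range φ.g
    · obtain ⟨a, rfl⟩ := h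
      exact ⟨Sum.inl ⟨a, by rw [extC_in] at hb; exact hb⟩, rfl⟩
    · refine ⟨Sum.inr ⟨⟨b, h⟩, ?_⟩, rfl⟩
      rw [extC_out φ c b h] at hb
      exact of_decide_eq_true hb

theorem ker_map {A B : FI d} (φ : FI.Hom A B) (x : (A.carrier → Bool) →₀ k)
    (hx : x ∈ LinearMap.ker (Finsupp.lmapDomain k k (cnt (X := A.carrier)))) :
    Finsupp.lmapDomain k k (extC φ) x ∈
      LinearMap.ker (Finsupp.lmapDomain k k (cnt (X := B.carrier))) := by
  rw [LinearMap.mem_ker] at hx ⊢
  rw [Finsupp.lmapDomain_apply] at hx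
  rw [Finsupp.lmapDomain_apply, Finsupp.lmapDomain_apply, ← Finsupp.mapDomain_comp]
  have h1 : (cnt (X := B.carrier)) ∘ extC φ =
      (fun m => m + Nat.card {b : {b : B.carrier // b ∉ Set.range φ.g} // (φ.h b).val = 0}) ∘
        (cnt (X := A.carrier)) := by
    funext c
    exact cnt_extC φ c
  rw [h1, Finsupp.mapDomain_comp, hx, Finsupp.mapDomain_zero]

variable (k d) in
/-- The `FI_d`-module which takes the finite set `A` to the space of all `k`-linear combinations
of two-colourings of `A` for which, for each `m`, the sum of the coefficients of the colourings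
with `m` points of value `true` is `0`. -/
noncomputable def Kmod : FI d ⥤ ModuleCat.{0} k where
  obj A := ModuleCat.of k (LinearMap.ker (Finsupp.lmapDomain k k (cnt (X := A.carrier))))
  map {A B} φ := ModuleCat.ofHom
    (LinearMap.restrict (Finsupp.lmapDomain k k (extC φ)) (ker_map φ))
  map_id A := by
    apply ModuleCat.hom_ext
    apply LinearMap.ext
    intro x
    apply Subtype.ext
    show Finsupp.lmapDomain k k (extC (𝟙 A)) x.1 = x.1
    have h1 : extC (𝟙 A) = id := funext (extC_id A)
    rw [h1, Finsupp.lmapDomain_apply, Finsupp.mapDomain_id]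
  map_comp {A B C} φ ψ := by
    apply ModuleCat.hom_ext
    apply LinearMap.ext
    intro x
    apply Subtype.ext
    show Finsupp.lmapDomain k k (extC (φ ≫ ψ)) x.1 =
      Finsupp.lmapDomain k k (extC ψ) (Finsupp.lmapDomain k k (extC φ) x.1)
    have h1 : extC (φ ≫ ψ) = extC ψ ∘ extC φ := funext (extC_comp φ ψ)
    rw [h1, Finsupp.lmapDomain_apply, Finsupp.lmapDomain_apply, Finsupp.lmapDomain_apply,
      Finsupp.mapDomain_comp]

/-- Two colourings with the same number of points of value `true` differ by a permutation. -/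
theorem exists_perm {X : Type} [Finite X] (c c' : X → Bool) (h : cnt c = cnt c') :
    ∃ σ : Equiv.Perm X, c ∘ σ = c' := by
  classical
  obtain ⟨e⟩ : Nonempty ({a : X // c' a = true} ≃ {a : X // c a = true}) :=
    ⟨(Finite.equivFinOfCardEq (h.symm : Nat.card {a : X // c' a = true} = cnt c)).trans
      (Finite.equivFinOfCardEq rfl).symm⟩
  have := Fintype.ofFinite X
  refine ⟨e.extendSubtype, ?_⟩
  funext a
  show c (e.extendSubtype a) = c' a
  by_cases ha : c' a = true
  · rw [ha]
    exact e.extendSubtype_mem a ha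
  · have h1 := e.extendSubtype_not_mem a ha
    rw [Bool.not_eq_true] at ha h1
    rw [ha, h1]

/-! ### finite generation -/

/-- the two-colouring of a set with two elements with values true, false -/
def col0 (d : ℕ) : (FI.std d 2).carrier → Bool := (![true, false] : Fin 2 → Bool)

/-- the two-colouring of a set with two elements with values false, true -/
def col1 (d : ℕ) : (FI.std d 2).carrier → Bool := (![false, true] : Fin 2 → Bool)

/-- the difference of two colourings with the same count is generated by the element of `V_2` -/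
theorem diff_mem (W : SubFunctor (Kmod d k)) (hd : 2 ≤ d) (v : (Kmod d k).obj (FI.std d 2))
    (hv : v.1 = Finsupp.single (col0 d) 1 - Finsupp.single (col1 d) 1)
    (hW : v ∈ W.obj (FI.std d 2)) (A : FI d) (c c' : A.carrier → Bool) (h : cnt c = cnt c')
    (a : k) : ∃ w ∈ W.obj A, w.1 = Finsupp.single c a - Finsupp.single c' a := by
  classical
  have key : ∀ (i j : A.carrier) (c : A.carrier → Bool),
      ∃ w ∈ W.obj A, w.1 = Finsupp.single c a - Finsupp.single (c ∘ Equiv.swap i j) a := by
    have key0 : ∀ (i j : A.carrier) (c : A.carrier → Bool), i ≠ j → c i = true → c j = false →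
        ∃ w ∈ W.obj A, w.1 = Finsupp.single c a - Finsupp.single (c ∘ Equiv.swap i j) a := by
      intro i j c hij hi hj
      let φ : FI.Hom (FI.std d 2) A :=
        { g := (![i, j] : Fin 2 → A.carrier)
          inj := by
            intro s t hst
            change Fin 2 at s t
            fin_cases s <;> fin_cases t
            · rfl
            · exact absurd hst hij
            · exact absurd hst.symm hij
            · rfl
          h := fun b => if c b.1 = true then ⟨0, by omega⟩ else ⟨1, by omega⟩ }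
      have h0 : φ.g (0 : Fin 2) = i := rfl
      have h1 : φ.g (1 : Fin 2) = j := rfl
      have hr : ∀ b, b ∉ Set.range φ.g → b ≠ i ∧ b ≠ j := by
        intro b hb
        refine ⟨?_, ?_⟩
        · rintro rfl
          exact hb ⟨(0 : Fin 2), h0⟩
        · rintro rfl
          exact hb ⟨(1 : Fin 2), h1⟩
      have hh : ∀ b (hb : b ∉ Set.range φ.g), decide ((φ.h ⟨b, hb⟩).val = 0) = c b := by
        intro b hb
        show decide ((if c b = true then (⟨0, by omega⟩ : Fin d) else ⟨1, by omega⟩).val = 0) = c b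
        cases hc : c b <;> simp
      have e0 : extC φ (col0 d) = c := by
        funext b
        by_cases hb : b ∈ Set.range φ.g
        · obtain ⟨t, rfl⟩ := hb
          rw [extC_in]
          change Fin 2 at t
          fin_cases t
          · exact hi.symm
          · exact hj.symm
        · rw [extC_out φ _ b hb, hh]
      have e1 : extC φ (col1 d) = c ∘ Equiv.swap i j := by
        funext b
        by_cases hb : b ∈ Set.range φ.g
        · obtain ⟨t, rfl⟩ := hb
          rw [extC_in]
          change Fin 2 at t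
          fin_cases t
          · show false = c (Equiv.swap i j i)
            rw [Equiv.swap_apply_left, hj]
          · show true = c (Equiv.swap i j j)
            rw [Equiv.swap_apply_right, hi]
        · rw [extC_out φ _ b hb, hh, Function.comp_apply,
            Equiv.swap_apply_of_ne_of_ne (hr b hb).1 (hr b hb).2]
      refine ⟨a • ((Kmod d k).map φ).hom v, (W.obj A).smul_mem a (W.map φ v hW), ?_⟩
      have e2 : (a • ((Kmod d k).map φ).hom v).1 = a • Finsupp.lmapDomain k k (extC φ) v.1 := rfl
      rw [e2, hv, map_sub, Finsupp.lmapDomain_apply, Finsupp.lmapDomain_apply,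
        Finsupp.mapDomain_single, Finsupp.mapDomain_single, e0, e1, smul_sub,
        Finsupp.smul_single, Finsupp.smul_single, smul_eq_mul, mul_one]
    intro i j c
    cases hi : c i <;> cases hj : c j
    · refine ⟨0, (W.obj A).zero_mem, ?_⟩
      have h1 : c ∘ Equiv.swap i j = c := by
        funext b
        rw [Function.comp_apply]
        rcases eq_or_ne b i with rfl | hbi
        · rw [Equiv.swap_apply_left, hi, hj]
        · rcases eq_or_ne b j with rfl | hbj
          · rw [Equiv.swap_apply_right, hi, hj]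
          · rw [Equiv.swap_apply_of_ne_of_ne hbi hbj]
      rw [h1, sub_self]
      rfl
    · rw [Equiv.swap_comm]
      exact key0 j i c (by rintro rfl; rw [hi] at hj; cases hj) hj hi
    · exact key0 i j c (by rintro rfl; rw [hi] at hj; cases hj) hi hj
    · refine ⟨0, (W.obj A).zero_mem, ?_⟩
      have h1 : c ∘ Equiv.swap i j = c := by
        funext b
        rw [Function.comp_apply]
        rcases eq_or_ne b i with rfl | hbi
        · rw [Equiv.swap_apply_left, hi, hj]
        · rcases eq_or_ne b j with rfl | hbj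
          · rw [Equiv.swap_apply_right, hi, hj]
          · rw [Equiv.swap_apply_of_ne_of_ne hbi hbj]
      rw [h1, sub_self]
      rfl
  obtain ⟨σ, rfl⟩ := exists_perm c c' h
  clear h
  have := Fintype.ofFinite A.carrier
  induction σ using Equiv.Perm.swap_induction_on generalizing c with
  | one =>
    refine ⟨0, (W.obj A).zero_mem, ?_⟩
    have : c ∘ ⇑(1 : Equiv.Perm A.carrier) = c := rfl
    rw [this, sub_self]
    rfl
  | swap_mul σ x y hxy ih =>
    obtain ⟨w1, hw1, hw1'⟩ := key x y c
    obtain ⟨w2, hw2, hw2'⟩ := ih (c ∘ Equiv.swap x y)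
    refine ⟨w1 + w2, (W.obj A).add_mem hw1 hw2, ?_⟩
    have h1 : c ∘ ⇑(Equiv.swap x y * σ) = (c ∘ Equiv.swap x y) ∘ σ := rfl
    rw [h1]
    have h2 : (w1 + w2).1 = w1.1 + w2.1 := rfl
    rw [h2, hw1', hw2']
    abel

theorem finGen (hd : 2 ≤ d) : FinGen (Kmod d k) := by
  classical
  have hker : (Finsupp.single (col0 d) (1 : k) - Finsupp.single (col1 d) (1 : k)) ∈
      LinearMap.ker (Finsupp.lmapDomain k k (cnt (X := (FI.std d 2).carrier))) := by
    rw [LinearMap.mem_ker, map_sub, Finsupp.lmapDomain_apply, Finsupp.lmapDomain_apply,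
      Finsupp.mapDomain_single, Finsupp.mapDomain_single]
    have h1 : cnt (col0 d) = cnt (col1 d) := by
      unfold cnt
      apply Nat.card_congr
      refine Equiv.subtypeEquiv (α := Fin 2) (β := Fin 2) (Equiv.swap (0 : Fin 2) 1) ?_
      intro a
      fin_cases a <;> simp [col0, col1]
    rw [h1, sub_self]
  refine ⟨1, fun _ => 2, fun _ => ⟨_, hker⟩, ?_⟩
  intro W hW A
  have hW0 := hW 0
  rw [eq_top_iff]
  rintro x -
  -- a representative for each count
  have hs : ∃ s : ℕ → (A.carrier → Bool), ∀ c : A.carrier → Bool, cnt (s (cnt c)) = cnt c := by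
    refine ⟨fun m => if h : ∃ c : A.carrier → Bool, cnt c = m then h.choose else fun _ => true, ?_⟩
    intro c
    have h : ∃ c' : A.carrier → Bool, cnt c' = cnt c := ⟨c, rfl⟩
    simp only
    rw [dif_pos h]
    exact h.choose_spec
  obtain ⟨s, hs⟩ := hs
  have hmain : ∀ y : (A.carrier → Bool) →₀ k,
      ∃ w ∈ W.obj A, w.1 = y - Finsupp.mapDomain s (Finsupp.mapDomain cnt y) := by
    intro y
    induction y using Finsupp.induction_linear with
    | zero =>
      refine ⟨0, (W.obj A).zero_mem, ?_⟩
      rw [Finsupp.mapDomain_zero, Finsupp.mapDomain_zero, sub_zero]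
      rfl
    | add y z hy hz =>
      obtain ⟨w1, hw1, hw1'⟩ := hy
      obtain ⟨w2, hw2, hw2'⟩ := hz
      refine ⟨w1 + w2, (W.obj A).add_mem hw1 hw2, ?_⟩
      have h2 : (w1 + w2).1 = w1.1 + w2.1 := rfl
      rw [h2, hw1', hw2', Finsupp.mapDomain_add, Finsupp.mapDomain_add]
      abel
    | single c a =>
      rw [Finsupp.mapDomain_single, Finsupp.mapDomain_single]
      exact diff_mem W hd _ rfl hW0 A c (s (cnt c)) (hs c).symm a
  obtain ⟨w, hw, hw'⟩ := hmain x.1
  have hx : Finsupp.mapDomain cnt x.1 = 0 := x.2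
  rw [hx, Finsupp.mapDomain_zero, sub_zero] at hw'
  have : w = x := Subtype.ext hw'
  rw [← this]
  exact hw

/-! ### the invariants -/

/-- the standard colouring with `m` points of value `true` -/
def stdc (n m : ℕ) : Fin n → Bool := fun i => decide (i.1 < m)

theorem cnt_stdc (n m : ℕ) (h : m ≤ n) : cnt (stdc n m) = m := by
  unfold cnt stdc
  rw [Nat.card_eq_fintype_card]
  simp only [decide_eq_true_eq]
  rw [Fintype.card_subtype]
  have : (Finset.univ.filter (fun i : Fin n => i.1 < m)) =
      (Finset.univ : Finset (Fin m)).map (Fin.castLEEmb h) := by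
    ext i
    simp only [Finset.mem_filter, Finset.mem_univ, true_and, Finset.mem_map]
    constructor
    · intro hi
      exact ⟨⟨i.1, hi⟩, rfl⟩
    · rintro ⟨j, rfl⟩
      exact j.2
  rw [this, Finset.card_map, Finset.card_univ, Fintype.card_fin]

theorem cnt_le {n : ℕ} (c : Fin n → Bool) : cnt c ≤ n := by
  unfold cnt
  have h := Nat.card_le_card_of_injective (fun a : {a : Fin n // c a = true} => a.1)
    Subtype.val_injective
  rwa [Nat.card_eq_fintype_card (α := Fin n), Fintype.card_fin] at h

theorem card_cnt (n m : ℕ) :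
    (Finset.univ.filter (fun c : Fin n → Bool => cnt c = m)).card = n.choose m := by
  classical
  have h1 : (Finset.powersetCard m (Finset.univ : Finset (Fin n))).card = n.choose m := by
    rw [Finset.card_powersetCard, Finset.card_univ, Fintype.card_fin]
  rw [← h1]
  refine Finset.card_bij (fun c _ => Finset.univ.filter (fun a => c a = true)) ?_ ?_ ?_
  · intro c hc
    rw [Finset.mem_filter] at hc
    rw [Finset.mem_powersetCard]
    refine ⟨Finset.subset_univ _, ?_⟩
    have h2 := hc.2
    unfold cnt at h2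
    rw [Nat.card_eq_fintype_card, Fintype.card_subtype] at h2
    exact h2
  · intro c hc c' hc' h
    funext a
    have h2 : a ∈ Finset.univ.filter (fun a => c a = true) ↔
        a ∈ Finset.univ.filter (fun a => c' a = true) := by
      rw [h]
    simp only [Finset.mem_filter, Finset.mem_univ, true_and] at h2
    exact Bool.eq_iff_iff.2 h2
  · intro S hS
    rw [Finset.mem_powersetCard] at hS
    refine ⟨fun a => decide (a ∈ S), ?_, ?_⟩
    · rw [Finset.mem_filter]
      refine ⟨Finset.mem_univ _, ?_⟩
      unfold cnt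
      rw [Nat.card_eq_fintype_card, Fintype.card_subtype]
      rw [← hS.2]
      congr 1
      ext a
      simp
    · ext a
      simp

theorem cnt_comp_perm {n : ℕ} (c : Fin n → Bool) (σ : Equiv.Perm (Fin n)) :
    cnt (c ∘ σ) = cnt c := by
  unfold cnt
  apply Nat.card_congr
  exact σ.subtypeEquiv (fun a => Iff.rfl)

theorem extC_perm {n : ℕ} (σ : Equiv.Perm (Fin n)) (c : Fin n → Bool) :
    extC (FI.perm d σ) c = c ∘ σ.symm := by
  funext b
  have h1 := extC_in (FI.perm d σ) c (σ.symm b)
  have h2 : (FI.perm d σ).g (σ.symm b) = b := σ.apply_symm_apply b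
  rw [h2] at h1
  exact h1

theorem mem_inv {n : ℕ} (f : (Kmod d k).obj (FI.std d n)) :
    f ∈ (rep (Kmod d k) n).invariants ↔
      ∀ (σ : Equiv.Perm (Fin n)) (c : Fin n → Bool), f.1 (c ∘ σ) = f.1 c := by
  have key : ∀ (σ : Equiv.Perm (Fin n)) (c : Fin n → Bool),
      ((rep (Kmod d k) n) σ f).1 c = f.1 (c ∘ σ) := by
    intro σ c
    have h1 : ((rep (Kmod d k) n) σ f).1 = Finsupp.mapDomain (extC (FI.perm d σ)) f.1 := rfl
    have h2 : extC (FI.perm d σ) (c ∘ σ) = c := by
      rw [extC_perm]
      funext a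
      simp
    rw [h1]
    conv_lhs => rw [← h2]
    exact Finsupp.mapDomain_apply (extC_injective (FI.perm d σ)) f.1 (c ∘ σ)
  rw [Representation.mem_invariants]
  constructor
  · intro h σ c
    rw [← key σ c, h σ]
  · intro h σ
    apply Subtype.ext
    apply Finsupp.ext
    intro c
    exact (key σ c).trans (h σ c)

theorem mapDomain_cnt {n : ℕ} (x : (Fin n → Bool) →₀ k) (m : ℕ) :
    Finsupp.mapDomain cnt x m =
      ∑ c ∈ Finset.univ.filter (fun c : Fin n → Bool => cnt c = m), x c := by
  classical
  unfold Finsupp.mapDomain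
  rw [Finsupp.sum_fintype _ _ (fun i => Finsupp.single_zero _), Finsupp.finsetSum_apply,
    Finset.sum_filter]
  refine Finset.sum_congr rfl ?_
  intro c _
  rw [Finsupp.single_apply]

/-- the invariants of `V_n` as functions on the set of `m ≤ n` with vanishing binomial
coefficient -/
noncomputable def invEquiv (k : Type) [Field k] (d n : ℕ) :
    (rep (Kmod d k) n).invariants ≃ₗ[k]
      ({m : Fin (n + 1) // ((n.choose m : ℕ) : k) = 0} → k) :=
  LinearEquiv.ofBijective
    { toFun := fun f m => f.1.1 (stdc n m.1)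
      map_add' := fun _ _ => rfl
      map_smul' := fun _ _ => rfl } (by
    classical
    constructor
    · rw [← LinearMap.ker_eq_bot, LinearMap.ker_eq_bot']
      intro f hf
      have hf1 : ∀ (m : Fin (n + 1)), ((n.choose m : ℕ) : k) = 0 → f.1.1 (stdc n m) = 0 :=
        fun m hm => congrFun hf ⟨m, hm⟩
      have hinv := (mem_inv f.1).1 f.2
      have hconst : ∀ c c' : Fin n → Bool, cnt c = cnt c' → f.1.1 c = f.1.1 c' := by
        intro c c' h
        obtain ⟨σ, rfl⟩ := exists_perm c c' h
        exact (hinv σ c).symm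
      have hall : ∀ c : Fin n → Bool, f.1.1 c = 0 := by
        intro c
        have hm : cnt c ≤ n := cnt_le c
        have h1 : f.1.1 c = f.1.1 (stdc n (cnt c)) :=
          hconst _ _ (cnt_stdc n (cnt c) hm).symm
        by_cases h0 : ((n.choose (cnt c) : ℕ) : k) = 0
        · rw [h1]
          exact hf1 ⟨cnt c, by omega⟩ h0
        · have h2 : Finsupp.mapDomain cnt f.1.1 = 0 := f.1.2
          have h3 : Finsupp.mapDomain cnt f.1.1 (cnt c) = 0 := by rw [h2]; rfl
          have h4 := mapDomain_cnt f.1.1 (cnt c)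
          have h5 : ∑ c' ∈ Finset.univ.filter (fun c' : Fin n → Bool => cnt c' = cnt c), f.1.1 c' =
              ∑ c' ∈ Finset.univ.filter (fun c' : Fin n → Bool => cnt c' = cnt c), f.1.1 c := by
            refine Finset.sum_congr rfl ?_
            intro c' hc'
            rw [Finset.mem_filter] at hc'
            exact hconst _ _ hc'.2
          have h6 : (0 : k) = (n.choose (cnt c) : ℕ) * f.1.1 c := by
            rw [← card_cnt n (cnt c), ← nsmul_eq_mul, ← Finset.sum_const]
            exact h3.symm.trans (h4.trans h5)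
          rcases mul_eq_zero.1 h6.symm with h7 | h7
          · exact absurd h7 h0
          · exact h7
      apply Subtype.ext
      apply Subtype.ext
      exact Finsupp.ext hall
    · intro u
      let x : (Fin n → Bool) →₀ k := Finsupp.equivFunOnFinite.symm (fun c =>
        if h : ((n.choose (cnt c) : ℕ) : k) = 0 then
          u ⟨⟨cnt c, Nat.lt_succ_of_le (cnt_le c)⟩, h⟩ else 0)
      have hx : ∀ c, x c = if h : ((n.choose (cnt c) : ℕ) : k) = 0 then
          u ⟨⟨cnt c, Nat.lt_succ_of_le (cnt_le c)⟩, h⟩ else 0 := fun c => rfl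
      have hconst : ∀ c c' : Fin n → Bool, cnt c = cnt c' → x c = x c' := by
        intro c c' h
        rw [hx, hx]
        by_cases h0 : ((n.choose (cnt c) : ℕ) : k) = 0
        · have h0' : ((n.choose (cnt c') : ℕ) : k) = 0 := by rw [← h]; exact h0
          rw [dif_pos h0, dif_pos h0']
          congr 1
          apply Subtype.ext
          apply Fin.ext
          exact h
        · have h0' : ¬ ((n.choose (cnt c') : ℕ) : k) = 0 := by rw [← h]; exact h0
          rw [dif_neg h0, dif_neg h0']
      have hker : x ∈ LinearMap.ker (Finsupp.lmapDomain k k (cnt (X := Fin n))) := by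
        rw [LinearMap.mem_ker, Finsupp.lmapDomain_apply]
        apply Finsupp.ext
        intro m
        rw [mapDomain_cnt, Finsupp.zero_apply]
        by_cases h0 : ((n.choose m : ℕ) : k) = 0
        · by_cases hex : ∃ c : Fin n → Bool, cnt c = m
          · obtain ⟨c, rfl⟩ := hex
            have h5 : ∑ c' ∈ Finset.univ.filter (fun c' : Fin n → Bool => cnt c' = cnt c), x c' =
                ∑ c' ∈ Finset.univ.filter (fun c' : Fin n → Bool => cnt c' = cnt c), x c := by
              refine Finset.sum_congr rfl ?_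
              intro c' hc'
              rw [Finset.mem_filter] at hc'
              exact hconst _ _ hc'.2
            rw [h5, Finset.sum_const, card_cnt, nsmul_eq_mul, h0, zero_mul]
          · apply Finset.sum_eq_zero
            intro c hc
            rw [Finset.mem_filter] at hc
            exact absurd ⟨c, hc.2⟩ hex
        · apply Finset.sum_eq_zero
          intro c hc
          rw [Finset.mem_filter] at hc
          rw [hx, dif_neg]
          rw [hc.2]
          exact h0
      refine ⟨⟨⟨x, hker⟩, ?_⟩, ?_⟩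
      · rw [mem_inv]
        intro σ c
        exact hconst _ _ (cnt_comp_perm c σ)
      · funext m
        show x (stdc n m.1) = u m
        have h1 : cnt (stdc n m.1) = m.1 := cnt_stdc n m.1 (by have := m.1.2; omega)
        rw [hx]
        have h0 : ((n.choose (cnt (stdc n m.1)) : ℕ) : k) = 0 := by
          rw [h1]
          exact m.2
        rw [dif_pos h0]
        congr 1
        apply Subtype.ext
        apply Fin.ext
        exact h1)

/-- **Disproof of the quasi-polynomiality of the cohomology of symmetric groups with coefficients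
in `FI_d`-modules.** For every prime `p`, every field `k` of characteristic `p` and every
`d ≥ 2` there is a finitely generated `FI_d`-module `V` over `k` for which the dimension of
`H^0(S_n, V_n)` is the number of `m ∈ {0, …, n}` such that `p` divides the binomial coefficient
`n.choose m`; the function `n ↦ dim_k H^0(S_n, V_n)` does not agree with any quasi-polynomial
(of any degree) for all large `n`. -/
theorem result (p : ℕ) (hp : p.Prime) (k : Type) [Field k] [CharP k p] (d : ℕ) (hd : 2 ≤ d) :
    ∃ V : FI d ⥤ ModuleCat.{0} k, FinGen V ∧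
      (∀ n, Module.Finite k (coh V 0 n)) ∧
      (∀ n, Module.finrank k (coh V 0 n) = Nat.card {m : Fin (n + 1) // p ∣ n.choose m}) ∧
      ¬ EventuallyQuasiPolynomial (fun n => Module.finrank k (coh V 0 n)) := by
  classical
  have e : ∀ n, coh (Kmod d k) 0 n ≃ₗ[k]
      ({m : Fin (n + 1) // ((n.choose m : ℕ) : k) = 0} → k) := fun n =>
    (groupCohomology.H0Iso (Rep.of (rep (Kmod d k) n))).toLinearEquiv.trans (invEquiv k d n)
  have hdim : ∀ n, Module.finrank k (coh (Kmod d k) 0 n) =
      Nat.card {m : Fin (n + 1) // p ∣ n.choose m} := by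
    intro n
    rw [(e n).finrank_eq, Module.finrank_fintype_fun_eq_card, ← Nat.card_eq_fintype_card]
    apply Nat.card_congr
    exact Equiv.subtypeEquivRight (fun m => CharP.cast_eq_zero_iff k p _)
  refine ⟨Kmod d k, finGen hd, ?_, hdim, ?_⟩
  · intro n
    exact Module.Finite.equiv (e n).symm
  · have h1 : (fun n => Module.finrank k (coh (Kmod d k) 0 n)) = num p := funext hdim
    rw [h1]
    exact not_eventually hp

end Pool.Agent.Results.MP_93a4b1_al.NotQuasiPolynomial
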